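import Pool.Agent.N818.SN.Stm

/-!
# SN-JB, SN-JC (helper73): the number of the solutions of the linear systems
-/

set_option autoImplicit false

open scoped Classical

namespace Pool.Agent.N73.SN

open Finset
open Pool.Agent.N877.P24 (Qc)
open Pool.Agent.N818.SN

/-! ### Linear algebra over the field with two elements -/

lemma z2_cases (z : ZMod 2) : z = 0 ∨ z = 1 := by
  revert z
  decide

lemma z2_self (z : ZMod 2) : z + z = 0 := CharTwo.add_self_eq_zero z

lemma z2_sq (z : ZMod 2) : z * z = z := by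
  revert z
  decide

/-- If the rows in `R` are independent, the number of the vectors orthogonal to them is
`2 ^ (#V - #R)`. -/
lemma count {V : Type} [Fintype V] (R : Finset V) (M : V → V → ZMod 2)
    (h : ∀ x : V → ZMod 2, (∀ p, p ∉ R → x p = 0) → (∀ q, ∑ p, x p * M p q = 0) → ∀ p, x p = 0) :
    (univ.filter fun s : V → ZMod 2 => ∀ p ∈ R, ∑ q, M p q * s q = 0).card * 2 ^ R.card =
      2 ^ Fintype.card V := by
  obtain ⟨A, hA⟩ : ∃ A : Matrix R V (ZMod 2), A = Matrix.of fun (p : R) (q : V) => M p q := ⟨_, rfl⟩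
  have hker : LinearMap.ker A.transpose.mulVecLin = ⊥ := by
    rw [LinearMap.ker_eq_bot']
    intro x hx
    rw [Matrix.mulVecLin_apply] at hx
    obtain ⟨x', hx'⟩ : ∃ x' : V → ZMod 2, x' = fun p => if hp : p ∈ R then x ⟨p, hp⟩ else 0 :=
      ⟨_, rfl⟩
    have h3 := h x' (fun p hp => by rw [hx']; exact dif_neg hp) (fun q => by
      have h4 := congrFun hx q
      rw [Pi.zero_apply, Matrix.mulVec, dotProduct] at h4
      rw [← h4, ← Finset.sum_subset (Finset.subset_univ R)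
        (fun p _ hp => by rw [hx']; simp only [dif_neg hp, zero_mul]), ← Finset.sum_coe_sort R]
      refine Finset.sum_congr rfl fun p _ => ?_
      rw [hx', hA]
      simp only [dif_pos p.2, Matrix.transpose_apply, Matrix.of_apply]
      rw [mul_comm])
    funext j
    have h5 := h3 j
    rw [hx'] at h5
    simp only [dif_pos j.2] at h5
    exact h5
  have hrank : A.rank = R.card := by
    rw [← Matrix.rank_transpose]
    have h4 := LinearMap.finrank_range_add_finrank_ker A.transpose.mulVecLin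
    rw [hker, finrank_bot, add_zero] at h4
    rw [Matrix.rank, h4]
    simp
  have hfk : Module.finrank (ZMod 2) (LinearMap.ker A.mulVecLin) + R.card = Fintype.card V := by
    have h4 := LinearMap.finrank_range_add_finrank_ker A.mulVecLin
    have h5 : Module.finrank (ZMod 2) (LinearMap.range A.mulVecLin) = R.card := hrank
    rw [h5] at h4
    have h6 : Module.finrank (ZMod 2) (V → ZMod 2) = Fintype.card V := by simp
    rw [h6] at h4
    omega
  have hcard : Nat.card (LinearMap.ker A.mulVecLin) =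
      2 ^ Module.finrank (ZMod 2) (LinearMap.ker A.mulVecLin) := by
    rw [Module.natCard_eq_pow_finrank (K := ZMod 2)]
    simp
  have heq : (univ.filter fun s : V → ZMod 2 => ∀ p ∈ R, ∑ q, M p q * s q = 0).card =
      Nat.card (LinearMap.ker A.mulVecLin) := by
    rw [← Fintype.card_subtype, ← Nat.card_eq_fintype_card]
    refine Nat.card_congr (Equiv.subtypeEquivRight fun s => ?_)
    rw [LinearMap.mem_ker, Matrix.mulVecLin_apply]
    constructor
    · intro h1
      funext p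
      rw [Pi.zero_apply, ← h1 p p.2, hA]
      rfl
    · intro h1 p hp
      have h2 := congrFun h1 ⟨p, hp⟩
      rw [Pi.zero_apply, hA] at h2
      exact h2
  rw [heq, hcard, ← pow_add, hfk]

/-- Sets and their indicator functions. -/
lemma card_sets (P : Finset ℕ) (C : Finset ℕ → Prop) (D : (P → ZMod 2) → Prop)
    (h : ∀ J ⊆ P, C J ↔ D fun q => if (q : ℕ) ∈ J then 1 else 0) :
    (P.powerset.filter fun J => C J).card = (univ.filter fun s : P → ZMod 2 => D s).card := by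
  refine Finset.card_bij (fun J _ => fun q : P => if (q : ℕ) ∈ J then 1 else 0) ?_ ?_ ?_
  · intro J hJ
    rw [mem_filter, mem_powerset] at hJ
    rw [mem_filter]
    exact ⟨mem_univ _, (h J hJ.1).1 hJ.2⟩
  · intro J hJ J' hJ' he
    rw [mem_filter, mem_powerset] at hJ hJ'
    ext q
    by_cases hq : q ∈ P
    · have h1 := congrFun he ⟨q, hq⟩
      simp only at h1
      by_cases h2 : q ∈ J <;> by_cases h3 : q ∈ J' <;> simp [h2, h3] at h1 ⊢
    · exact ⟨fun h' => absurd (hJ.1 h') hq, fun h' => absurd (hJ'.1 h') hq⟩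
  · intro s hs
    rw [mem_filter] at hs
    obtain ⟨J, hJ⟩ : ∃ J : Finset ℕ, J = P.filter fun q => ∃ hq : q ∈ P, s ⟨q, hq⟩ = 1 := ⟨_, rfl⟩
    have h1 : (fun q : P => if (q : ℕ) ∈ J then (1 : ZMod 2) else 0) = s := by
      funext q
      have h2 : (q : ℕ) ∈ J ↔ s q = 1 := by
        rw [hJ, mem_filter]
        exact ⟨fun h' => h'.2.2, fun h' => ⟨q.2, q.2, h'⟩⟩
      rcases z2_cases (s q) with h3 | h3
      · rw [if_neg, h3]
        rw [h2, h3]
        decide
      · rw [if_pos (h2.2 h3), h3]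
    have hJP : J ⊆ P := by
      rw [hJ]
      exact filter_subset _ _
    refine ⟨J, ?_, h1⟩
    rw [mem_filter, mem_powerset]
    refine ⟨hJP, (h J hJP).2 ?_⟩
    rw [h1]
    exact hs.2

lemma cardeq {α : Type} {i1 i2 : Fintype α} {P Q : α → Prop} {d1 : DecidablePred P}
    {d2 : DecidablePred Q} (h : ∀ a, P a ↔ Q a) :
    (@Finset.filter α P d1 (@univ α i1)).card = (@Finset.filter α Q d2 (@univ α i2)).card := by
  have h1 : i1 = i2 := Subsingleton.elim _ _
  subst h1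
  congr 1
  ext a
  simp [h a]

lemma filter_card_eq {s : Finset ℕ} {A B : ℕ → Prop} {d1 : DecidablePred A}
    {d2 : DecidablePred B} (h : ∀ x ∈ s, A x ↔ B x) :
    (@Finset.filter ℕ A d1 s).card = (@Finset.filter ℕ B d2 s).card := by
  congr 1
  ext x
  rw [mem_filter, mem_filter]
  exact and_congr_right fun hx => h x hx

/-! ### The additive Legendre symbol -/

/-- The additive Legendre symbol. -/
noncomputable def lg (a : ℤ) (p : ℕ) : ZMod 2 := if jacobiSym a p = 1 then 0 else 1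

lemma jac_ne {p : ℕ} (hp : p.Prime) {a : ℤ} (ha : ¬ (p : ℤ) ∣ a) :
    jacobiSym a p = 1 ∨ jacobiSym a p = -1 := by
  apply jacobiSym.eq_one_or_neg_one
  rw [Int.gcd_comm]
  exact Int.isCoprime_iff_gcd_eq_one.1 ((Nat.prime_iff_prime_int.1 hp).coprime_iff_not_dvd.2 ha)

lemma lg_eq_zero {a : ℤ} {p : ℕ} : lg a p = 0 ↔ jacobiSym a p = 1 := by
  rw [lg]
  split_ifs with h
  · exact ⟨fun _ => h, fun _ => rfl⟩
  · exact ⟨fun h' => absurd h' one_ne_zero, fun h' => absurd h' h⟩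

lemma lg_one (p : ℕ) : lg 1 p = 0 := lg_eq_zero.2 (jacobiSym.one_left p)

lemma lg_mul {p : ℕ} (hp : p.Prime) {a b : ℤ} (ha : ¬ (p : ℤ) ∣ a) (hb : ¬ (p : ℤ) ∣ b) :
    lg (a * b) p = lg a p + lg b p := by
  rw [lg, lg, lg, jacobiSym.mul_left]
  rcases jac_ne hp ha with h1 | h1 <;> rcases jac_ne hp hb with h2 | h2 <;> rw [h1, h2] <;> decide

lemma not_dvd_prod {p : ℕ} (hp : p.Prime) (J : Finset ℕ) (f : ℕ → ℤ)
    (h : ∀ q ∈ J, ¬ (p : ℤ) ∣ f q) : ¬ (p : ℤ) ∣ ∏ q ∈ J, f q := by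
  intro h1
  obtain ⟨q, hq, h2⟩ := (Nat.prime_iff_prime_int.1 hp).exists_mem_finset_dvd h1
  exact h q hq h2

lemma lg_prod {p : ℕ} (hp : p.Prime) (J : Finset ℕ) (f : ℕ → ℤ)
    (h : ∀ q ∈ J, ¬ (p : ℤ) ∣ f q) : lg (∏ q ∈ J, f q) p = ∑ q ∈ J, lg (f q) p := by
  induction J using Finset.induction_on with
  | empty => rw [prod_empty, sum_empty, lg_one]
  | insert a J ha ih =>
    have h1 : ∀ q ∈ J, ¬ (p : ℤ) ∣ f q := fun q hq => h q (mem_insert_of_mem hq)
    rw [prod_insert ha, sum_insert ha, lg_mul hp (h a (mem_insert_self _ _))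
      (not_dvd_prod hp J f h1), ih h1]

lemma isSquare_iff {p : ℕ} (hp : p.Prime) {a : ℤ} (ha : ¬ (p : ℤ) ∣ a) :
    IsSquare ((a : ℤ) : ZMod p) ↔ lg a p = 0 := by
  have := Fact.mk hp
  rw [lg_eq_zero, ← jacobiSym.legendreSym.to_jacobiSym, legendreSym.eq_one_iff]
  rw [Ne, ZMod.intCast_zmod_eq_zero_iff_dvd]
  exact ha

/-- The class modulo four. -/
def ee (p : ℕ) : ZMod 2 := if p % 4 = 1 then 0 else 1

lemma lg_neg_one {p : ℕ} (h2 : p % 2 = 1) : lg (-1) p = ee p := by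
  rw [lg, ee, jacobiSym.at_neg_one (Nat.odd_iff.2 h2)]
  have h4 : p % 4 = 1 ∨ p % 4 = 3 := by omega
  rcases h4 with h | h
  · rw [ZMod.χ₄_nat_one_mod_four h, if_pos rfl, if_pos h]
  · rw [ZMod.χ₄_nat_three_mod_four h, if_neg (by decide), if_neg (by omega)]

lemma st_eq (p : ℕ) : st p = sg p * p := by
  rw [st, sg]
  split_ifs <;> ring

lemma sg_sq (p : ℕ) : sg p * sg p = 1 := by
  rw [sg]
  split_ifs <;> norm_num

lemma not_dvd_nat {p q : ℕ} (hp : p.Prime) (hq : q.Prime) (h : p ≠ q) : ¬ (p : ℤ) ∣ (q : ℤ) := by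
  intro h1
  exact h ((Nat.prime_dvd_prime_iff_eq hp hq).1 (Int.natCast_dvd_natCast.1 h1))

lemma not_dvd_sg {p : ℕ} (hp : p.Prime) (q : ℕ) : ¬ (p : ℤ) ∣ sg q := by
  intro h1
  have h2 : (p : ℤ) ∣ 1 := by
    rw [← sg_sq q]
    exact h1.mul_right _
  have h3 : p ∣ 1 := by exact_mod_cast h2
  exact hp.one_lt.ne' (Nat.dvd_one.1 h3)

lemma not_dvd_st {p q : ℕ} (hp : p.Prime) (hq : q.Prime) (h : p ≠ q) : ¬ (p : ℤ) ∣ st q := by
  rw [st_eq]
  intro h1
  rcases (Nat.prime_iff_prime_int.1 hp).dvd_or_dvd h1 with h2 | h2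
  · exact not_dvd_sg hp q h2
  · exact not_dvd_nat hp hq h h2

lemma lg_sg {p : ℕ} (h2 : p % 2 = 1) (q : ℕ) : lg (sg q) p = ee q * ee p := by
  rw [sg]
  unfold ee
  split_ifs with h h' h'
  · rw [lg_one, zero_mul]
  · rw [lg_one, zero_mul]
  · rw [lg_neg_one h2, ee, if_pos h', mul_zero]
  · rw [lg_neg_one h2, ee, if_neg h', one_mul]

/-- Quadratic reciprocity. -/
lemma lg_recip {p q : ℕ} (hp : p.Prime) (hq : q.Prime) (hp2 : p % 2 = 1) (hq2 : q % 2 = 1)
    (h : p ≠ q) : lg (st q) p = lg (p : ℤ) q := by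
  have h4 : q % 4 = 1 ∨ q % 4 = 3 := by omega
  rcases h4 with h4 | h4
  · rw [st, if_pos h4, lg, lg, jacobiSym.quadratic_reciprocity_one_mod_four h4 (Nat.odd_iff.2 hp2)]
  · have h5 : p % 4 = 1 ∨ p % 4 = 3 := by omega
    have h6 : st q = -1 * (q : ℤ) := by
      rw [st, if_neg (by omega)]
      ring
    rw [h6, lg_mul hp (by
      intro h7
      have h8 : (p : ℤ) ∣ 1 := by
        have := h7.mul_right (-1)
        simpa using this
      have h3 : p ∣ 1 := by exact_mod_cast h8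
      exact hp.one_lt.ne' (Nat.dvd_one.1 h3)) (not_dvd_nat hp hq h), lg_neg_one hp2]
    rcases h5 with h5 | h5
    · rw [ee, if_pos h5, zero_add, lg, lg,
        jacobiSym.quadratic_reciprocity_one_mod_four h5 (Nat.odd_iff.2 hq2)]
    · rw [ee, if_neg (by omega), lg, lg, jacobiSym.quadratic_reciprocity_three_mod_four h4 h5]
      rcases jac_ne hq (not_dvd_nat hq hp (Ne.symm h)) with h8 | h8 <;> rw [h8] <;> decide

lemma lg_st {p q : ℕ} (hp : p.Prime) (hq : q.Prime) (hp2 : p % 2 = 1)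
    (h : p ≠ q) : lg (st q) p = lg (q : ℤ) p + ee q * ee p := by
  rw [st_eq, lg_mul hp (not_dvd_sg hp q) (not_dvd_nat hp hq h), lg_sg hp2, add_comm]

/-! ### The matrices -/

section

variable (P : Finset ℕ)

/-- The matrix for `α = 1`. -/
noncomputable def MB (p q : ℕ) : ZMod 2 :=
  if p = q then ∑ r ∈ P.erase p, lg (st r) p else lg (st q) p

/-- The matrix for `α = -14`. -/
noncomputable def MC (p q : ℕ) : ZMod 2 :=
  if p = q then ee p + ∑ r ∈ P.erase p, lg (r : ℤ) p else lg (q : ℤ) p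

/-- The hypotheses on the set of the primes. -/
structure HP : Prop where
  pr : ∀ p ∈ P, p.Prime
  odd : ∀ p ∈ P, p % 2 = 1
  ne3 : ∀ p ∈ P, p ≠ 3
  sum : ∑ p ∈ P, ee p = 1

variable {P}

lemma sum_MB (J : Finset ℕ) (p : ℕ) (hJ : J ⊆ P) : ∑ q ∈ J, MB P p q =
    ∑ q ∈ J.erase p, lg (st q) p + if p ∈ J then ∑ r ∈ P.erase p, lg (st r) p else 0 := by
  split_ifs with h
  · rw [← sum_erase_add J _ h]
    congr 1
    · refine sum_congr rfl fun q hq => ?_
      rw [MB, if_neg (ne_of_mem_erase hq).symm]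
    · rw [MB, if_pos rfl]
  · rw [erase_eq_of_notMem h, add_zero]
    refine sum_congr rfl fun q hq => ?_
    rw [MB, if_neg]
    rintro rfl
    exact h hq

lemma row_MB {p : ℕ} (hp : p ∈ P) : ∑ q ∈ P, MB P p q = 0 := by
  rw [sum_MB P p Subset.rfl, if_pos hp, z2_self]

lemma MB_symm (h : HP P) {p q : ℕ} (hp : p ∈ P) (hq : q ∈ P) (hpq : p ≠ q) :
    MB P p q = MB P q p + ee p * ee q := by
  rw [MB, if_neg hpq, MB, if_neg hpq.symm, lg_recip (h.pr p hp) (h.pr q hq) (h.odd p hp)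
    (h.odd q hq) hpq, lg_st (h.pr q hq) (h.pr p hp) (h.odd q hq) hpq.symm, add_assoc, z2_self,
    add_zero]

lemma col_MB (h : HP P) {q : ℕ} (hq : q ∈ P) : ∑ p ∈ P, MB P p q = 0 := by
  have h1 : ∑ p ∈ P.erase q, MB P p q = ∑ p ∈ P.erase q, (MB P q p + ee p * ee q) :=
    sum_congr rfl fun p hp => MB_symm h (mem_of_mem_erase hp) hq (ne_of_mem_erase hp)
  have h2 := row_MB hq
  rw [← sum_erase_add P _ hq] at h2 ⊢
  have h3 : ∑ p ∈ P.erase q, ee p + ee q = 1 := by rw [sum_erase_add P _ hq, h.sum]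
  rw [h1, sum_add_distrib, ← sum_mul]
  have h4 : (∑ p ∈ P.erase q, ee p) * ee q = 0 := by
    have h5 : ∑ p ∈ P.erase q, ee p = 1 - ee q := by linear_combination h3
    rw [h5, sub_mul, one_mul, z2_sq, sub_self]
  rw [h4, add_zero, h2]

lemma MC_eq (h : HP P) {p q : ℕ} (hp : p ∈ P) (hq : q ∈ P) :
    MC P p q = MB P p q + ee p * ee q := by
  by_cases hpq : p = q
  · subst hpq
    rw [MC, if_pos rfl, MB, if_pos rfl]
    have h1 : ∑ r ∈ P.erase p, lg (st r) p = ∑ r ∈ P.erase p, (lg (r : ℤ) p + ee r * ee p) :=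
      sum_congr rfl fun r hr => lg_st (h.pr p hp) (h.pr r (mem_of_mem_erase hr)) (h.odd p hp)
        (ne_of_mem_erase hr).symm
    rw [h1, sum_add_distrib, ← sum_mul]
    have h3 : ∑ p ∈ P.erase p, ee p + ee p = 1 := by rw [sum_erase_add P _ hp, h.sum]
    have h5 : ∑ r ∈ P.erase p, ee r = 1 - ee p := by linear_combination h3
    rw [h5, sub_mul, one_mul, z2_sq, sub_self, add_zero, add_comm]
  · rw [MC, if_neg hpq, MB, if_neg hpq, lg_st (h.pr p hp) (h.pr q hq) (h.odd p hp) hpq, add_assoc,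
      mul_comm (ee q), z2_self, add_zero]

/-- The product of the `st q`. -/
lemma prod_sg (h : HP P) : ∏ q ∈ P, sg q = -1 := by
  have h1 : ∀ J : Finset ℕ, (∑ q ∈ J, ee q = 0 → ∏ q ∈ J, sg q = 1) ∧
      (∑ q ∈ J, ee q = 1 → ∏ q ∈ J, sg q = -1) := by
    intro J
    induction J using Finset.induction_on with
    | empty =>
      refine ⟨fun _ => prod_empty, fun h' => ?_⟩
      rw [sum_empty] at h'
      exact absurd h' zero_ne_one
    | insert a J ha ih =>
      rw [sum_insert ha, prod_insert ha]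
      by_cases h4 : a % 4 = 1
      · rw [ee, if_pos h4, zero_add, sg, if_pos h4, one_mul]
        exact ih
      · rw [ee, if_neg h4, sg, if_neg h4]
        refine ⟨fun h5 => ?_, fun h5 => ?_⟩
        · have h6 : ∑ q ∈ J, ee q = 1 := by
            have : ∑ q ∈ J, ee q = 1 + (1 + ∑ q ∈ J, ee q) := by
              rw [← add_assoc, z2_self, zero_add]
            rw [this, h5, add_zero]
          rw [ih.2 h6]
          norm_num
        · have h6 : ∑ q ∈ J, ee q = 0 := by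
            have : ∑ q ∈ J, ee q = 1 + (1 + ∑ q ∈ J, ee q) := by
              rw [← add_assoc, z2_self, zero_add]
            rw [this, h5, z2_self]
          rw [ih.1 h6]
          norm_num
  exact (h1 P).2 h.sum

lemma prod_erase (h : HP P) {p : ℕ} (hp : p ∈ P) :
    -(∏ q ∈ P.erase p, (q : ℤ)) * sg p = ∏ q ∈ P.erase p, st q := by
  have h1 : sg p * ∏ q ∈ P.erase p, sg q = -1 := by
    rw [mul_prod_erase P _ hp, prod_sg h]
  have h2 : ∏ q ∈ P.erase p, st q = (∏ q ∈ P.erase p, sg q) * ∏ q ∈ P.erase p, (q : ℤ) := by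
    rw [← prod_mul_distrib]
    exact prod_congr rfl fun q _ => st_eq q
  have h3 : ∏ q ∈ P.erase p, sg q = -sg p := by
    calc ∏ q ∈ P.erase p, sg q = (sg p * sg p) * ∏ q ∈ P.erase p, sg q := by
          rw [sg_sq, one_mul]
      _ = sg p * (sg p * ∏ q ∈ P.erase p, sg q) := by ring
      _ = -sg p := by rw [h1]; ring
  rw [h2, h3]
  ring

/-- The condition for `α = 1` in terms of the matrix. -/
lemma CB_iff (h : HP P) {J : Finset ℕ} (hJ : J ⊆ P) :
    CB P J ↔ ∀ p ∈ P, p % 3 = 1 → ∑ q ∈ J, MB P p q = 0 := by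
  rw [CB]
  refine ⟨fun h1 p hp h3 => ?_, fun h1 => ⟨hJ, fun p hp h3 => ?_⟩⟩
  · have hpp := h.pr p hp
    have hst : ∀ q ∈ J.erase p, ¬ (p : ℤ) ∣ st q := fun q hq =>
      not_dvd_st hpp (h.pr q (hJ (mem_of_mem_erase hq))) (ne_of_mem_erase hq).symm
    have hst' : ∀ q ∈ P.erase p, ¬ (p : ℤ) ∣ st q := fun q hq =>
      not_dvd_st hpp (h.pr q (mem_of_mem_erase hq)) (ne_of_mem_erase hq).symm
    rw [sum_MB J p hJ]
    by_cases hpJ : p ∈ J
    · rw [if_pos hpJ]
      have h4 := (h1.2 p hp h3).2 hpJ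
      rw [← mul_assoc, prod_erase h hp] at h4
      have h5 : ¬ (p : ℤ) ∣ (∏ q ∈ P.erase p, st q) * ∏ q ∈ J.erase p, st q := fun h6 =>
        ((Nat.prime_iff_prime_int.1 hpp).dvd_or_dvd h6).elim (not_dvd_prod hpp _ _ hst')
          (not_dvd_prod hpp _ _ hst)
      rw [isSquare_iff hpp h5, lg_mul hpp (not_dvd_prod hpp _ _ hst') (not_dvd_prod hpp _ _ hst),
        lg_prod hpp _ _ hst', lg_prod hpp _ _ hst] at h4
      rw [add_comm]
      exact h4
    · rw [if_neg hpJ, add_zero]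
      have h4 := (h1.2 p hp h3).1 hpJ
      rw [erase_eq_of_notMem hpJ] at hst ⊢
      rwa [isSquare_iff hpp (not_dvd_prod hpp _ _ hst), lg_prod hpp _ _ hst] at h4
  · have hpp := h.pr p hp
    have hst : ∀ q ∈ J.erase p, ¬ (p : ℤ) ∣ st q := fun q hq =>
      not_dvd_st hpp (h.pr q (hJ (mem_of_mem_erase hq))) (ne_of_mem_erase hq).symm
    have hst' : ∀ q ∈ P.erase p, ¬ (p : ℤ) ∣ st q := fun q hq =>
      not_dvd_st hpp (h.pr q (mem_of_mem_erase hq)) (ne_of_mem_erase hq).symm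
    have h2 := h1 p hp h3
    rw [sum_MB J p hJ] at h2
    refine ⟨fun hpJ => ?_, fun hpJ => ?_⟩
    · rw [if_neg hpJ, add_zero] at h2
      rw [erase_eq_of_notMem hpJ] at hst h2
      rwa [isSquare_iff hpp (not_dvd_prod hpp _ _ hst), lg_prod hpp _ _ hst]
    · rw [if_pos hpJ] at h2
      rw [← mul_assoc, prod_erase h hp]
      have h5 : ¬ (p : ℤ) ∣ (∏ q ∈ P.erase p, st q) * ∏ q ∈ J.erase p, st q := fun h6 =>
        ((Nat.prime_iff_prime_int.1 hpp).dvd_or_dvd h6).elim (not_dvd_prod hpp _ _ hst')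
          (not_dvd_prod hpp _ _ hst)
      rw [isSquare_iff hpp h5, lg_mul hpp (not_dvd_prod hpp _ _ hst') (not_dvd_prod hpp _ _ hst),
        lg_prod hpp _ _ hst', lg_prod hpp _ _ hst, add_comm]
      exact h2

lemma sum_MC (J : Finset ℕ) (p : ℕ) (hJ : J ⊆ P) : ∑ q ∈ J, MC P p q =
    ∑ q ∈ J.erase p, lg (q : ℤ) p +
      if p ∈ J then ee p + ∑ r ∈ P.erase p, lg (r : ℤ) p else 0 := by
  split_ifs with h
  · rw [← sum_erase_add J _ h]
    congr 1
    · refine sum_congr rfl fun q hq => ?_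
      rw [MC, if_neg (ne_of_mem_erase hq).symm]
    · rw [MC, if_pos rfl]
  · rw [erase_eq_of_notMem h, add_zero]
    refine sum_congr rfl fun q hq => ?_
    rw [MC, if_neg]
    rintro rfl
    exact h hq

lemma not_dvd_neg_one {p : ℕ} (hp : p.Prime) : ¬ (p : ℤ) ∣ -1 := by
  intro h7
  have h8 : (p : ℤ) ∣ 1 := by
    have := h7.mul_right (-1)
    simpa using this
  have h3 : p ∣ 1 := by exact_mod_cast h8
  exact hp.one_lt.ne' (Nat.dvd_one.1 h3)

/-- The condition for `α = -14` in terms of the matrix. -/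
lemma CC_iff (h : HP P) {J : Finset ℕ} (hJ : J ⊆ P) :
    CC P J ↔ ∀ p ∈ P, IsSquare (3 : ZMod p) → ∑ q ∈ J, MC P p q = 0 := by
  rw [CC]
  have key : ∀ p ∈ P, ((p ∉ J → IsSquare ((∏ q ∈ J, (q : ℤ) : ℤ) : ZMod p)) ∧
      (p ∈ J → IsSquare ((-(∏ q ∈ P.erase p, (q : ℤ)) * (∏ q ∈ J.erase p, (q : ℤ)) : ℤ) : ZMod p)))
      ↔ ∑ q ∈ J, MC P p q = 0 := by
    intro p hp
    have hpp := h.pr p hp
    have hst : ∀ q ∈ J.erase p, ¬ (p : ℤ) ∣ (q : ℤ) := fun q hq =>
      not_dvd_nat hpp (h.pr q (hJ (mem_of_mem_erase hq))) (ne_of_mem_erase hq).symm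
    have hst' : ∀ q ∈ P.erase p, ¬ (p : ℤ) ∣ (q : ℤ) := fun q hq =>
      not_dvd_nat hpp (h.pr q (mem_of_mem_erase hq)) (ne_of_mem_erase hq).symm
    rw [sum_MC J p hJ]
    by_cases hpJ : p ∈ J
    · rw [if_pos hpJ]
      have h4 : (-(∏ q ∈ P.erase p, (q : ℤ)) * (∏ q ∈ J.erase p, (q : ℤ)) : ℤ) =
          -1 * ((∏ q ∈ P.erase p, (q : ℤ)) * (∏ q ∈ J.erase p, (q : ℤ))) := by ring
      have h5 : ¬ (p : ℤ) ∣ (∏ q ∈ P.erase p, (q : ℤ)) * ∏ q ∈ J.erase p, (q : ℤ) := fun h6 =>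
        ((Nat.prime_iff_prime_int.1 hpp).dvd_or_dvd h6).elim (not_dvd_prod hpp _ _ hst')
          (not_dvd_prod hpp _ _ hst)
      have h6 : ¬ (p : ℤ) ∣ -1 * ((∏ q ∈ P.erase p, (q : ℤ)) * ∏ q ∈ J.erase p, (q : ℤ)) :=
        fun h6 => ((Nat.prime_iff_prime_int.1 hpp).dvd_or_dvd h6).elim (not_dvd_neg_one hpp) h5
      rw [h4]
      have h7 : (p ∉ J → IsSquare ((∏ q ∈ J, (q : ℤ) : ℤ) : ZMod p)) := fun h' => absurd hpJ h'
      rw [isSquare_iff hpp h6, lg_mul hpp (not_dvd_neg_one hpp) h5,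
        lg_mul hpp (not_dvd_prod hpp _ _ hst') (not_dvd_prod hpp _ _ hst),
        lg_prod hpp _ _ hst', lg_prod hpp _ _ hst, lg_neg_one (h.odd p hp)]
      constructor
      · intro h8
        have h9 := h8.2 hpJ
        rw [← h9]
        ring
      · intro h8
        refine ⟨h7, fun _ => ?_⟩
        rw [← h8]
        ring
    · rw [if_neg hpJ, add_zero]
      rw [erase_eq_of_notMem hpJ] at hst ⊢
      rw [isSquare_iff hpp (not_dvd_prod hpp _ _ hst), lg_prod hpp _ _ hst]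
      exact ⟨fun h8 => h8.1 hpJ, fun h8 => ⟨fun _ => h8, fun h' => absurd h' hpJ⟩⟩
  exact ⟨fun h1 p hp h3 => (key p hp).1 (h1.2 p hp h3), fun h1 => ⟨hJ, fun p hp h3 =>
    (key p hp).2 (h1 p hp h3)⟩⟩

/-- The left kernel of the matrix. -/
lemma left_MB (h : HP P) {n : ℕ} (hn : ∏ p ∈ P, p = n) (hQ : Qc n) {B : Finset ℕ} (hB : B ⊆ P)
    (h1 : ∀ q ∈ P, ∑ p ∈ B, MB P p q = 0) : B = ∅ ∨ B = P := by
  obtain ⟨b, hb⟩ : ∃ b, b = ∏ p ∈ B, p := ⟨_, rfl⟩
  obtain ⟨c, hc⟩ : ∃ c, c = ∏ p ∈ P \ B, p := ⟨_, rfl⟩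
  have hbc : b * c = n := by
    rw [hb, hc, mul_comm, prod_sdiff hB, hn]
  have hne : ∀ J : Finset ℕ, J ⊆ P → ∀ q, q.Prime → q ∣ ∏ p ∈ J, p → q ∈ J := by
    intro J hJ q hq h2
    obtain ⟨p, hp, h3⟩ := hq.prime.exists_mem_finset_dvd h2
    rw [(Nat.prime_dvd_prime_iff_eq hq (h.pr p (hJ hp))).1 h3]
    exact hp
  have hlg : ∀ J : Finset ℕ, J ⊆ P → ∀ q ∈ P, q ∉ J →
      lg ((∏ p ∈ J, p : ℕ) : ℤ) q = ∑ p ∈ J, MB P p q := by
    intro J hJ q hq hqJ
    have h2 : ∀ p ∈ J, q ≠ p := by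
      rintro p hp rfl
      exact hqJ hp
    rw [Nat.cast_prod, lg_prod (h.pr q hq) J (fun p => (p : ℤ)) fun p hp =>
      not_dvd_nat (h.pr q hq) (h.pr p (hJ hp)) (h2 p hp)]
    refine sum_congr rfl fun p hp => ?_
    rw [MB, if_neg (h2 p hp).symm, lg_recip (h.pr p (hJ hp)) (h.pr q hq) (h.odd p (hJ hp))
      (h.odd q hq) (h2 p hp).symm]
  have hb1 : ∀ J : Finset ℕ, J ⊆ P → ∏ p ∈ J, p = 1 → J = ∅ := by
    intro J hJ h2
    by_contra h3
    obtain ⟨p, hp⟩ := Finset.nonempty_iff_ne_empty.2 h3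
    have h4 : p ∣ 1 := by
      rw [← h2]
      exact dvd_prod_of_mem _ hp
    exact (h.pr p (hJ hp)).one_lt.ne' (Nat.dvd_one.1 h4)
  suffices hor : b = 1 ∨ c = 1 by
    rcases hor with h2 | h2
    · left
      exact hb1 B hB (by rw [← hb, h2])
    · right
      have h3 := hb1 (P \ B) sdiff_subset (by rw [← hc, h2])
      exact Subset.antisymm hB (sdiff_eq_empty_iff_subset.1 h3)
  refine hQ b c hbc ?_ ?_
  · intro q hq
    have h3 : q ∈ P \ B := hne _ sdiff_subset q (Nat.prime_of_mem_primeFactors hq) (by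
      rw [← hc]
      exact Nat.dvd_of_mem_primeFactors hq)
    rw [mem_sdiff] at h3
    rw [← lg_eq_zero, hb, hlg B hB q h3.1 h3.2, h1 q h3.1]
  · intro q hq
    have h3 : q ∈ B := hne _ hB q (Nat.prime_of_mem_primeFactors hq) (by
      rw [← hb]
      exact Nat.dvd_of_mem_primeFactors hq)
    have h4 : q ∉ P \ B := fun h5 => (mem_sdiff.1 h5).2 h3
    rw [← lg_eq_zero, hc, hlg _ sdiff_subset q (hB h3) h4]
    have h5 := col_MB h (hB h3)
    rw [← sum_sdiff hB, h1 q (hB h3), add_zero] at h5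
    exact h5

/-- Sums over the subtype. -/
lemma sum_sub (x : P → ZMod 2) (f : ℕ → ZMod 2) {B : Finset ℕ}
    (hB : ∀ p : P, (p : ℕ) ∈ B ↔ x p = 1) (hBP : B ⊆ P) :
    ∑ p : P, x p * f p = ∑ p ∈ B, f p := by
  rw [← Finset.sum_filter_add_sum_filter_not univ (fun p : P => x p = 1)]
  have h1 : ∑ p ∈ univ.filter (fun p : P => ¬ x p = 1), x p * f p = 0 := by
    refine sum_eq_zero fun p hp => ?_
    rcases z2_cases (x p) with h2 | h2
    · rw [h2, zero_mul]
    · exact absurd h2 (mem_filter.1 hp).2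
  rw [h1, add_zero]
  refine sum_bij (fun p _ => (p : ℕ)) ?_ ?_ ?_ ?_
  · intro p hp
    exact (hB p).2 (mem_filter.1 hp).2
  · intro p _ q _ hpq
    exact Subtype.ext hpq
  · intro q hq
    exact ⟨⟨q, hBP hq⟩, mem_filter.2 ⟨mem_univ _, (hB _).1 hq⟩, rfl⟩
  · intro p hp
    rw [(mem_filter.1 hp).2, one_mul]

lemma exists_B (x : P → ZMod 2) : ∃ B : Finset ℕ, (∀ p : P, (p : ℕ) ∈ B ↔ x p = 1) ∧ B ⊆ P := by
  refine ⟨P.filter fun q => ∃ hq : q ∈ P, x ⟨q, hq⟩ = 1, fun p => ?_, filter_subset _ _⟩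
  rw [mem_filter]
  exact ⟨fun h' => h'.2.2, fun h' => ⟨p.2, p.2, h'⟩⟩

lemma card_filter_sub (Q : ℕ → Prop) :
    ((univ : Finset P).filter fun p : P => Q (p : ℕ)).card = (P.filter Q).card := by
  refine card_bij (fun i _ => (i : ℕ)) ?_ ?_ ?_
  · intro i hi
    rw [mem_filter] at hi ⊢
    exact ⟨i.2, hi.2⟩
  · intro i _ j _ h
    exact Subtype.ext h
  · intro p hp
    rw [mem_filter] at hp
    exact ⟨⟨p, hp.1⟩, mem_filter.2 ⟨mem_univ _, hp.2⟩, rfl⟩

/-- The number of the sets. -/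
lemma card_gen (C : Finset ℕ → Prop) (Q : ℕ → Prop) (M : ℕ → ℕ → ZMod 2)
    (hC : ∀ J ⊆ P, C J ↔ ∀ p ∈ P, Q p → ∑ q ∈ J, M p q = 0)
    (hind : ∀ B ⊆ P, (∀ p ∈ B, Q p) → (∀ q ∈ P, ∑ p ∈ B, M p q = 0) → B = ∅) :
    (P.powerset.filter fun J => C J).card = 2 ^ (P.filter fun p => ¬ Q p).card := by
  have h1 := count (V := P) (univ.filter fun p : P => Q (p : ℕ)) (fun p q => M p q) (by
    intro x hx hs p
    obtain ⟨B, hB, hBP⟩ := exists_B x
    have h2 : B = ∅ := hind B hBP (fun p hp => by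
      by_contra h3
      have h4 := hx ⟨p, hBP hp⟩ (fun h5 => h3 (mem_filter.1 h5).2)
      have h5 := (hB ⟨p, hBP hp⟩).1 hp
      rw [h4] at h5
      exact zero_ne_one h5) (fun q hq => by
      rw [← sum_sub x (fun p => M p q) hB hBP]
      exact hs ⟨q, hq⟩)
    rcases z2_cases (x p) with h3 | h3
    · exact h3
    · have h4 := (hB p).2 h3
      rw [h2] at h4
      exact absurd h4 (notMem_empty _))
  obtain ⟨D, hD⟩ : ∃ D : (P → ZMod 2) → Prop, D = fun s : P → ZMod 2 =>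
      ∀ p ∈ (univ.filter fun p : P => Q (p : ℕ)), ∑ q : P, M p q * s q = 0 := ⟨_, rfl⟩
  have h1' : (univ.filter fun s : P → ZMod 2 => D s).card *
      2 ^ (univ.filter fun p : P => Q (p : ℕ)).card = 2 ^ Fintype.card P := by
    rw [← h1, hD]
    exact congrArg (fun k => k * 2 ^ (univ.filter fun p : P => Q (p : ℕ)).card)
      (cardeq fun _ => Iff.rfl)
  have h2 : (P.powerset.filter fun J => C J).card =
      (univ.filter fun s : P → ZMod 2 => D s).card := by
    refine card_sets P C D fun J hJ => ?_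
    rw [hC J hJ, hD]
    have h3 : ∀ p : ℕ, ∑ q : P, M p q * (if (q : ℕ) ∈ J then (1 : ZMod 2) else 0) =
        ∑ q ∈ J, M p q := by
      intro p
      rw [← sum_sub (fun q : P => if (q : ℕ) ∈ J then (1 : ZMod 2) else 0) (fun q => M p q)
        (fun q => by
          by_cases h4 : (q : ℕ) ∈ J
          · simp [h4]
          · simp [h4]) hJ]
      exact sum_congr rfl fun q _ => mul_comm _ _
    constructor
    · intro h4 p hp
      rw [h3]
      exact h4 p p.2 (mem_filter.1 hp).2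
    · intro h4 p hp hQp
      rw [← h3]
      exact h4 ⟨p, hp⟩ (mem_filter.2 ⟨mem_univ _, hQp⟩)
  rw [h2]
  rw [card_filter_sub, Fintype.card_coe] at h1'
  have h3 : (P.filter fun p => ¬ Q p).card + (P.filter Q).card = P.card := by
    rw [add_comm]
    exact Finset.card_filter_add_card_filter_not (s := P) Q
  rw [← h3, pow_add] at h1'
  exact Nat.eq_of_mul_eq_mul_right (Nat.two_pow_pos _) h1'

end

/-! ### The theorems -/

lemma fm_hp {n : ℕ} (hn : Fm n) : HP n.primeFactors ∧ ∏ p ∈ n.primeFactors, p = n := by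
  obtain ⟨hsq, h24⟩ := hn
  have hprod : ∏ p ∈ n.primeFactors, p = n := Nat.prod_primeFactors_of_squarefree hsq
  have hodd : ∀ p ∈ n.primeFactors, p % 2 = 1 := by
    intro p hp
    rcases (Nat.prime_of_mem_primeFactors hp).eq_two_or_odd with h | h
    · exfalso
      have h1 := Nat.dvd_of_mem_primeFactors hp
      rw [h] at h1
      omega
    · exact h
  refine ⟨⟨fun p hp => Nat.prime_of_mem_primeFactors hp, hodd, ?_, ?_⟩, hprod⟩
  · rintro p hp rfl
    have h1 := Nat.dvd_of_mem_primeFactors hp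
    omega
  · have h1 : ∀ J : Finset ℕ, (∀ p ∈ J, p % 2 = 1) →
        (∑ q ∈ J, ee q = 0 ∧ (∏ q ∈ J, q) % 4 = 1) ∨
        (∑ q ∈ J, ee q = 1 ∧ (∏ q ∈ J, q) % 4 = 3) := by
      intro J
      induction J using Finset.induction_on with
      | empty =>
        intro _
        left
        rw [sum_empty, prod_empty]
        exact ⟨rfl, rfl⟩
      | insert a J ha ih =>
        intro h2
        have h3 := ih fun p hp => h2 p (mem_insert_of_mem hp)
        have h4 := h2 a (mem_insert_self _ _)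
        rw [sum_insert ha, prod_insert ha]
        have h5 : a % 4 = 1 ∨ a % 4 = 3 := by omega
        rcases h3 with ⟨h3, h6⟩ | ⟨h3, h6⟩ <;> rcases h5 with h5 | h5
        · left
          rw [h3, ee, if_pos h5, Nat.mul_mod, h5, h6]
          exact ⟨rfl, rfl⟩
        · right
          rw [h3, ee, if_neg (by omega), Nat.mul_mod, h5, h6]
          exact ⟨rfl, rfl⟩
        · right
          rw [h3, ee, if_pos h5, Nat.mul_mod, h5, h6]
          exact ⟨rfl, rfl⟩
        · left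
          rw [h3, ee, if_neg (by omega), Nat.mul_mod, h5, h6]
          exact ⟨rfl, rfl⟩
    rcases h1 _ hodd with h2 | h2
    · rw [hprod] at h2
      omega
    · exact h2.1

theorem t_JB : S_JB := by
  intro n hn hQ
  obtain ⟨h, hprod⟩ := fm_hp hn
  have h24 := hn.2
  have h3 : ∀ p ∈ n.primeFactors, p % 3 = 1 ∨ p % 3 = 2 := by
    intro p hp
    have h4 : ¬ 3 ∣ p := fun h5 => h.ne3 p hp
      ((Nat.prime_dvd_prime_iff_eq Nat.prime_three (h.pr p hp)).1 h5).symm
    omega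
  constructor
  · rw [card_gen (fun J => CB n.primeFactors J) (fun p => p % 3 = 1) (MB n.primeFactors)
      (fun J hJ => CB_iff h hJ)]
    · refine congrArg (fun k => 2 ^ k) (filter_card_eq fun p hp => ?_)
      have := h3 p hp
      omega
    · intro B hB hR hk
      rcases left_MB h hprod hQ hB hk with h4 | h4
      · exact h4
      · exfalso
        have h5 : ∀ J : Finset ℕ, (∀ p ∈ J, p % 3 = 1) → (∏ q ∈ J, q) % 3 = 1 := by
          intro J
          induction J using Finset.induction_on with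
          | empty =>
            intro _
            rw [prod_empty]
            norm_num
          | insert a J ha ih =>
            intro h6
            rw [prod_insert ha, Nat.mul_mod, h6 a (mem_insert_self _ _),
              ih fun p hp => h6 p (mem_insert_of_mem hp)]
        have h6 := h5 B hR
        rw [h4, hprod] at h6
        omega
  · intro J hJ
    have hJP := hJ.1
    rw [CB_iff h hJP] at hJ
    rw [CB_iff h sdiff_subset]
    intro p hp hp3
    have h4 := row_MB hp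
    rw [← sum_sdiff hJP, hJ p hp hp3, add_zero] at h4
    exact h4

theorem t_JC : S_JC := by
  intro n hn hQ
  obtain ⟨h, hprod⟩ := fm_hp hn
  refine card_gen (fun J => CC n.primeFactors J) (fun p => IsSquare (3 : ZMod p))
    (MC n.primeFactors) (fun J hJ => CC_iff h hJ) ?_
  intro B hB hR hk
  have h1 : ∀ q ∈ n.primeFactors,
      ∑ p ∈ B, MB n.primeFactors p q + (∑ p ∈ B, ee p) * ee q = 0 := by
    intro q hq
    rw [← hk q hq, sum_mul, ← sum_add_distrib]
    exact sum_congr rfl fun p hp => (MC_eq h (hB hp) hq).symm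
  rcases z2_cases (∑ p ∈ B, ee p) with h2 | h2
  · have h3 : ∀ q ∈ n.primeFactors, ∑ p ∈ B, MB n.primeFactors p q = 0 := by
      intro q hq
      have := h1 q hq
      rwa [h2, zero_mul, add_zero] at this
    rcases left_MB h hprod hQ hB h3 with h4 | h4
    · exact h4
    · rw [h4, h.sum] at h2
      exact absurd h2 one_ne_zero
  · exfalso
    have h3 : ∑ q ∈ n.primeFactors, (∑ p ∈ B, MB n.primeFactors p q +
        (∑ p ∈ B, ee p) * ee q) = 0 := sum_eq_zero h1
    rw [sum_add_distrib, ← mul_sum, h2, h.sum, sum_comm,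
      sum_eq_zero fun p hp => row_MB (hB hp)] at h3
    simp at h3

end Pool.Agent.N73.SN
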