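import Pool.Agent.N659.HB.Stm10

/-!
# Fractional moments, exponent one half, general law (part FMU of project SN, helper659)

By helper73, an adaptation of the proof of helper491 for the uniform law (part FM of project SD).
-/

set_option autoImplicit false

namespace Pool.Agent.N73.SN.FMU

open MeasureTheory Filter Set Pool.Agent.W792.LL Pool.Agent.W792.WA Pool.Agent.N659.HB
open scoped Topology ENNReal

/-! ### elementary -/

theorem half_add {a b : ℝ} (ha : 0 ≤ a) (hb : 0 ≤ b) :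
    (a + b) ^ (1 / 2 : ℝ) ≤ a ^ (1 / 2 : ℝ) + b ^ (1 / 2 : ℝ) :=
  Real.rpow_add_le_add_rpow ha hb (by norm_num) (by norm_num)

theorem half_sum {ι : Type*} (s : Finset ι) (f g : ι → ℝ) (hf : ∀ i, 0 ≤ f i) (hg : ∀ i, 0 ≤ g i) :
    (∑ i ∈ s, (f i + g i)) ^ (1 / 2 : ℝ) ≤ ∑ i ∈ s, (f i ^ (1 / 2 : ℝ) + g i ^ (1 / 2 : ℝ)) := by
  classical
  induction s using Finset.induction_on with
  | empty => simp
  | insert a s ha ih =>
    rw [Finset.sum_insert ha, Finset.sum_insert ha]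
    refine (half_add (add_nonneg (hf a) (hg a)) (Finset.sum_nonneg fun i _ =>
      add_nonneg (hf i) (hg i))).trans ?_
    exact add_le_add (half_add (hf a) (hg a)) ih

theorem half_mono {X S γ : ℝ} (hX : 0 ≤ X) (hγ : 0 ≤ γ) (hS : 0 ≤ S) (h : X ≤ γ * S) :
    X ^ (1 / 2 : ℝ) ≤ γ ^ (1 / 2 : ℝ) * S ^ (1 / 2 : ℝ) := by
  rw [← Real.mul_rpow hγ hS]
  exact Real.rpow_le_rpow hX h (by norm_num)

theorem nd_self {d : ℕ} (x : Fin d → ℤ) : nd x x = 0 := by
  unfold nd
  simp

theorem nd_add {d : ℕ} (x a : Fin d → ℤ) (i : Fin d) : nd x a ≤ nd x (a + Pi.single i 1) + 1 := by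
  have e1 : ∀ z : Fin d → ℤ, nd x z = (x i - z i).natAbs +
      ∑ j ∈ Finset.univ.erase i, (x j - z j).natAbs := fun z =>
    (Finset.add_sum_erase Finset.univ (fun j => (x j - z j).natAbs) (Finset.mem_univ i)).symm
  obtain ⟨z, hz⟩ : ∃ z : Fin d → ℤ, z = a + Pi.single i 1 := ⟨_, rfl⟩
  rw [← hz, e1, e1]
  have h1 : ∑ j ∈ Finset.univ.erase i, (x j - z j).natAbs =
      ∑ j ∈ Finset.univ.erase i, (x j - a j).natAbs := by
    apply Finset.sum_congr rfl
    intro j hj
    rw [Finset.mem_erase] at hj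
    rw [hz, Pi.add_apply, Pi.single_eq_of_ne hj.1, add_zero]
  have h2 : z i = a i + 1 := by rw [hz, Pi.add_apply, Pi.single_eq_same]
  rw [h1, h2]
  omega

theorem nd_sub {d : ℕ} (x a : Fin d → ℤ) (i : Fin d) : nd x a ≤ nd x (a - Pi.single i 1) + 1 := by
  have h := nd_add (-x) (-a) i
  have e : ∀ y z : Fin d → ℤ, nd (-y) (-z) = nd y z := by
    intro y z
    unfold nd
    apply Finset.sum_congr rfl
    intro j _
    rw [Pi.neg_apply, Pi.neg_apply]
    omega
  have e2 : -a + Pi.single i 1 = -(a - Pi.single i 1) := by abel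
  rw [e2, e, e] at h
  exact h

/-- decay from the inequality at all sites other than `x` -/
theorem decay {d : ℕ} (x : Fin d → ℤ) (f : (Fin d → ℤ) → ℝ) (ρ B : ℝ) (hρ : 0 ≤ ρ)
    (hr : 2 * d * ρ ≤ 1 / 2) (hf0 : ∀ a, 0 ≤ f a) (hB : ∀ a, f a ≤ B)
    (h : ∀ a, a ≠ x → f a ≤ ρ * ∑ i : Fin d, (f (a + Pi.single i 1) + f (a - Pi.single i 1))) :
    ∀ a, f a ≤ f x * (2 * d * ρ) ^ nd x a := by
  have hd : (0 : ℝ) ≤ d := Nat.cast_nonneg d
  have hr0 : 0 ≤ 2 * d * ρ := by positivity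
  have hsum : ∀ (a : Fin d → ℤ) (m : ℝ), (∀ i, f (a + Pi.single i 1) ≤ m) →
      (∀ i, f (a - Pi.single i 1) ≤ m) →
      ρ * ∑ i : Fin d, (f (a + Pi.single i 1) + f (a - Pi.single i 1)) ≤ 2 * d * ρ * m := by
    intro a m h1 h2
    have h3 : ∑ i : Fin d, (f (a + Pi.single i 1) + f (a - Pi.single i 1)) ≤ ∑ _i : Fin d, (m + m) :=
      Finset.sum_le_sum fun i _ => add_le_add (h1 i) (h2 i)
    rw [Finset.sum_const, Finset.card_univ, Fintype.card_fin, nsmul_eq_mul] at h3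
    calc _ ≤ ρ * (d * (m + m)) := mul_le_mul_of_nonneg_left h3 hρ
      _ = _ := by ring
  -- first `f ≤ f x`
  have hbdd : BddAbove (Set.range f) := ⟨B, by rintro _ ⟨a, rfl⟩; exact hB a⟩
  obtain ⟨M, hM⟩ : ∃ M, M = ⨆ a, f a := ⟨_, rfl⟩
  have hfM : ∀ a, f a ≤ M := fun a => by rw [hM]; exact le_ciSup hbdd a
  have hM0 : 0 ≤ M := (hf0 x).trans (hfM x)
  have hfx : ∀ a, f a ≤ f x := by
    have h1 : M ≤ max (f x) (M / 2) := by
      rw [hM]
      apply ciSup_le
      intro a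
      rw [← hM]
      by_cases ha : a = x
      · rw [ha]; exact le_max_left _ _
      · refine le_trans ?_ (le_max_right _ _)
        refine (h a ha).trans ((hsum a M (fun i => hfM _) fun i => hfM _).trans ?_)
        nlinarith
    have h2 : M ≤ f x := by
      rcases le_max_iff.1 h1 with h3 | h3
      · exact h3
      · have : M ≤ 0 := by linarith
        exact this.trans (hf0 x)
    exact fun a => (hfM a).trans h2
  have main : ∀ (n : ℕ) (a : Fin d → ℤ), n ≤ nd x a → f a ≤ f x * (2 * d * ρ) ^ n := by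
    intro n
    induction n with
    | zero => intro a _; rw [pow_zero, mul_one]; exact hfx a
    | succ n ih =>
      intro a ha
      have hax : a ≠ x := by
        rintro rfl
        rw [nd_self] at ha
        omega
      refine (h a hax).trans ((hsum a (f x * (2 * d * ρ) ^ n) (fun i => ih _ ?_)
        fun i => ih _ ?_).trans (le_of_eq (by ring)))
      · have := nd_add x a i; omega
      · have := nd_sub x a i; omega
  exact fun a => main _ a le_rfl

/-! ### resampling -/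

theorem resample (hRS : S_RS) (ν : Measure ℝ) [IsProbabilityMeasure ν] {d : ℕ} (a : Fin d → ℤ)
    {F : ((Fin d → ℤ) → ℝ) → ℝ} (hF : Measurable F) {B : ℝ} (hB : ∀ v, |F v| ≤ B) :
    ∫ v, F v ∂(Pn ν (Fin d → ℤ)) =
      ∫ v, (∫ t, F (Function.update v a t) ∂ν) ∂(Pn ν (Fin d → ℤ)) := by
  have hmp := hRS ν d a
  have h1 : ∫ v, F v ∂(Pn ν (Fin d → ℤ)) =
      ∫ p : ((Fin d → ℤ) → ℝ) × ℝ, F (Function.update p.1 a p.2)
        ∂((Pn ν (Fin d → ℤ)).prod ν) := by
    conv_lhs => rw [← hmp.map_eq]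
    exact integral_map hmp.measurable.aemeasurable hF.aestronglyMeasurable
  rw [h1, integral_prod]
  refine Integrable.of_bound (hF.comp hmp.measurable).aestronglyMeasurable B ?_
  exact ae_of_all _ fun p => by rw [Real.norm_eq_abs]; exact hB _

theorem resample_le (hRS : S_RS) (ν : Measure ℝ) [IsProbabilityMeasure ν] {d : ℕ} (a : Fin d → ℤ)
    {F G : ((Fin d → ℤ) → ℝ) → ℝ} (hF : Measurable F) (hG : Measurable G) {B B' : ℝ}
    (hF0 : ∀ v, 0 ≤ F v) (hB : ∀ v, |F v| ≤ B) (hB' : ∀ v, |G v| ≤ B')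
    (h : ∀ v, ∫ t, F (Function.update v a t) ∂ν ≤ ∫ t, G (Function.update v a t) ∂ν) :
    ∫ v, F v ∂(Pn ν (Fin d → ℤ)) ≤ ∫ v, G v ∂(Pn ν (Fin d → ℤ)) := by
  rw [resample hRS ν a hF hB, resample hRS ν a hG hB']
  have hmp := hRS ν d a
  apply integral_mono_of_nonneg
  · exact ae_of_all _ fun v => integral_nonneg fun t => hF0 _
  · have hI : Integrable (fun p : ((Fin d → ℤ) → ℝ) × ℝ => G (Function.update p.1 a p.2))
        ((Pn ν (Fin d → ℤ)).prod ν) := by
      refine Integrable.of_bound (hG.comp hmp.measurable).aestronglyMeasurable B' ?_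
      exact ae_of_all _ fun p => by rw [Real.norm_eq_abs]; exact hB' _
    exact hI.integral_prod_left
  · exact ae_of_all _ h

/-- the decoupling inequality -/
def Dec (μ : Measure ℝ) (w C : ℝ) : Prop := ∀ κ α β c : ℂ, (∀ t : ℝ, |t| ≤ w → α * t + β ≠ 0) →
  ∫ t, ‖c / (α * (t : ℂ) + β)‖ ^ (1 / 2 : ℝ) ∂μ
    ≤ C * ∫ t, ‖(t : ℂ) - κ‖ ^ (1 / 2 : ℝ) * ‖c / (α * (t : ℂ) + β)‖ ^ (1 / 2 : ℝ) ∂μ

/-- one step at a good site -/
theorem step (hRS : S_RS) {μ : Measure ℝ} [IsProbabilityMeasure μ] {w C : ℝ}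
    (hsupp : ∀ᵐ x ∂μ, |x| ≤ w) (hC0 : 0 ≤ C) (hC : Dec μ w C) {d : ℕ} {γ : ℝ} (hγ : 0 ≤ γ) (κ : ℂ) (a : Fin d → ℤ)
    (H : (Fin d → ℤ) → ((Fin d → ℤ) → ℝ) → ℂ) {B : ℝ}
    (hm : ∀ z, Measurable (H z)) (hB : ∀ z v, ‖H z v‖ ≤ B)
    (h3 : ∀ v, ∀ t : ℝ, |t| ≤ w → ‖(t : ℂ) - κ‖ * ‖H a (Function.update v a t)‖ ≤
      γ * ∑ i : Fin d, (‖H (a + Pi.single i 1) (Function.update v a t)‖ +
        ‖H (a - Pi.single i 1) (Function.update v a t)‖))
    (h4 : ∀ v, ∃ α β c : ℂ, ∀ t : ℝ, |t| ≤ w → α * t + β ≠ 0 ∧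
      H a (Function.update v a t) = c / (α * t + β)) :
    ∫ v, ‖H a v‖ ^ (1 / 2 : ℝ) ∂(Pn μ (Fin d → ℤ)) ≤
      C * γ ^ (1 / 2 : ℝ) * ∑ i : Fin d,
        (∫ v, ‖H (a + Pi.single i 1) v‖ ^ (1 / 2 : ℝ) ∂(Pn μ (Fin d → ℤ)) +
          ∫ v, ‖H (a - Pi.single i 1) v‖ ^ (1 / 2 : ℝ) ∂(Pn μ (Fin d → ℤ))) := by
  have hB0 : 0 ≤ B := (norm_nonneg _).trans (hB a fun _ => 0)
  have hmh : ∀ z, Measurable fun v => ‖H z v‖ ^ (1 / 2 : ℝ) :=
    fun z => (hm z).norm.pow_const _
  have hBh : ∀ z v, ‖H z v‖ ^ (1 / 2 : ℝ) ≤ B ^ (1 / 2 : ℝ) :=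
    fun z v => Real.rpow_le_rpow (norm_nonneg _) (hB z v) (by norm_num)
  have hint : ∀ z, Integrable (fun v => ‖H z v‖ ^ (1 / 2 : ℝ)) (Pn μ (Fin d → ℤ)) := by
    intro z
    refine Integrable.of_bound (hmh z).aestronglyMeasurable (B ^ (1 / 2 : ℝ)) ?_
    refine ae_of_all _ fun v => ?_
    rw [Real.norm_of_nonneg (by positivity)]
    exact hBh z v
  obtain ⟨G, hG⟩ : ∃ G : ((Fin d → ℤ) → ℝ) → ℝ, G = fun v => C * γ ^ (1 / 2 : ℝ) *
    ∑ i : Fin d, (‖H (a + Pi.single i 1) v‖ ^ (1 / 2 : ℝ) +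
      ‖H (a - Pi.single i 1) v‖ ^ (1 / 2 : ℝ)) := ⟨_, rfl⟩
  have hGm : Measurable G := by
    rw [hG]
    exact (Finset.measurable_sum _ fun i _ => (hmh _).add (hmh _)).const_mul _
  have hG0 : ∀ v, 0 ≤ G v := by
    intro v
    rw [hG]
    positivity
  have hGB : ∀ v, |G v| ≤ C * γ ^ (1 / 2 : ℝ) * (d * (B ^ (1 / 2 : ℝ) + B ^ (1 / 2 : ℝ))) := by
    intro v
    rw [abs_of_nonneg (hG0 v), hG]
    apply mul_le_mul_of_nonneg_left _ (by positivity)
    calc _ ≤ ∑ _i : Fin d, (B ^ (1 / 2 : ℝ) + B ^ (1 / 2 : ℝ)) :=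
          Finset.sum_le_sum fun i _ => add_le_add (hBh _ _) (hBh _ _)
      _ = _ := by rw [Finset.sum_const, Finset.card_univ, Fintype.card_fin, nsmul_eq_mul]
  have hGi : ∫ v, G v ∂(Pn μ (Fin d → ℤ)) = C * γ ^ (1 / 2 : ℝ) * ∑ i : Fin d,
        (∫ v, ‖H (a + Pi.single i 1) v‖ ^ (1 / 2 : ℝ) ∂(Pn μ (Fin d → ℤ)) +
          ∫ v, ‖H (a - Pi.single i 1) v‖ ^ (1 / 2 : ℝ) ∂(Pn μ (Fin d → ℤ))) := by
    have hint2 : ∀ i ∈ (Finset.univ : Finset (Fin d)), Integrable
        (fun v => ‖H (a + Pi.single i 1) v‖ ^ (1 / 2 : ℝ) +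
          ‖H (a - Pi.single i 1) v‖ ^ (1 / 2 : ℝ)) (Pn μ (Fin d → ℤ)) := by
      intro i _
      exact (hint (a + Pi.single i 1)).add (hint (a - Pi.single i 1))
    have e0 := integral_finsetSum (μ := Pn μ (Fin d → ℤ)) Finset.univ hint2
    rw [hG, integral_const_mul, e0]
    congr 1
    apply Finset.sum_congr rfl
    intro i _
    exact integral_add (hint (a + Pi.single i 1)) (hint (a - Pi.single i 1))
  rw [← hGi]
  refine resample_le hRS μ a (hmh a) hGm (fun v => by positivity)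
    (B := B ^ (1 / 2 : ℝ)) (fun v => ?_) hGB ?_
  · rw [abs_of_nonneg (by positivity)]
    exact hBh a v
  intro v
  obtain ⟨α, β, c, hαβ⟩ := h4 v
  have hmu : ∀ z, Measurable fun t : ℝ => ‖H z (Function.update v a t)‖ ^ (1 / 2 : ℝ) :=
    fun z => (hmh z).comp (measurable_update v)
  have e1 : ∫ t, ‖H a (Function.update v a t)‖ ^ (1 / 2 : ℝ) ∂μ =
      ∫ t, ‖c / (α * (t : ℂ) + β)‖ ^ (1 / 2 : ℝ) ∂μ := by
    apply integral_congr_ae
    filter_upwards [hsupp] with t ht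
    rw [(hαβ t ht).2]
  have e2 : ∫ t, ‖(t : ℂ) - κ‖ ^ (1 / 2 : ℝ) * ‖c / (α * (t : ℂ) + β)‖ ^ (1 / 2 : ℝ) ∂μ =
      ∫ t, ‖(t : ℂ) - κ‖ ^ (1 / 2 : ℝ) * ‖H a (Function.update v a t)‖ ^ (1 / 2 : ℝ) ∂μ := by
    apply integral_congr_ae
    filter_upwards [hsupp] with t ht
    rw [(hαβ t ht).2]
  have e3 := hC κ α β c fun t ht => (hαβ t ht).1
  have hSm : Measurable fun t : ℝ => ∑ i : Fin d,
      (‖H (a + Pi.single i 1) (Function.update v a t)‖ ^ (1 / 2 : ℝ) +
        ‖H (a - Pi.single i 1) (Function.update v a t)‖ ^ (1 / 2 : ℝ)) :=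
    Finset.measurable_sum _ fun i _ => (hmu _).add (hmu _)
  have e4 : ∫ t, ‖(t : ℂ) - κ‖ ^ (1 / 2 : ℝ) * ‖H a (Function.update v a t)‖ ^ (1 / 2 : ℝ)
        ∂μ ≤
      ∫ t, γ ^ (1 / 2 : ℝ) * ∑ i : Fin d,
        (‖H (a + Pi.single i 1) (Function.update v a t)‖ ^ (1 / 2 : ℝ) +
          ‖H (a - Pi.single i 1) (Function.update v a t)‖ ^ (1 / 2 : ℝ)) ∂μ := by
    apply integral_mono_of_nonneg
    · exact ae_of_all _ fun t => by positivity
    · refine Integrable.of_bound (hSm.const_mul _).aestronglyMeasurable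
        (γ ^ (1 / 2 : ℝ) * (d * (B ^ (1 / 2 : ℝ) + B ^ (1 / 2 : ℝ)))) ?_
      refine ae_of_all _ fun t => ?_
      rw [Real.norm_of_nonneg (by positivity)]
      apply mul_le_mul_of_nonneg_left _ (by positivity)
      calc _ ≤ ∑ _i : Fin d, (B ^ (1 / 2 : ℝ) + B ^ (1 / 2 : ℝ)) :=
            Finset.sum_le_sum fun i _ => add_le_add (hBh _ _) (hBh _ _)
        _ = _ := by rw [Finset.sum_const, Finset.card_univ, Fintype.card_fin, nsmul_eq_mul]
    · filter_upwards [hsupp] with t ht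
      have h5 := h3 v t ht
      rw [← Real.mul_rpow (norm_nonneg _) (norm_nonneg _)]
      refine (half_mono (by positivity) hγ (Finset.sum_nonneg fun i _ => by positivity) h5).trans ?_
      apply mul_le_mul_of_nonneg_left _ (by positivity)
      exact half_sum _ _ _ (fun i => norm_nonneg _) fun i => norm_nonneg _
  calc ∫ t, ‖H a (Function.update v a t)‖ ^ (1 / 2 : ℝ) ∂μ ≤ C * _ := by
        rw [e1]; exact e3
    _ = C * ∫ t, ‖(t : ℂ) - κ‖ ^ (1 / 2 : ℝ) * ‖H a (Function.update v a t)‖ ^ (1 / 2 : ℝ)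
          ∂μ := by rw [e2]
    _ ≤ C * _ := mul_le_mul_of_nonneg_left e4 hC0
    _ = ∫ t, G (Function.update v a t) ∂μ := by
        rw [← integral_const_mul]
        apply integral_congr_ae
        refine ae_of_all _ fun t => ?_
        rw [hG]
        simp only
        ring

/-- pointwise bounds give bounds of the integrals -/
theorem pt {μ : Measure ℝ} [IsProbabilityMeasure μ] {d : ℕ} {γ : ℝ} (hγ : 0 ≤ γ)
    (a : Fin d → ℤ) (H : (Fin d → ℤ) → ((Fin d → ℤ) → ℝ) → ℂ) {B : ℝ}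
    (hm : ∀ z, Measurable (H z)) (hB : ∀ z v, ‖H z v‖ ≤ B) {L e : ℝ} (hL : 0 ≤ L)
    (he : 0 ≤ e)
    (h : ∀ v, ‖H a v‖ ≤ L * (e + γ * ∑ i : Fin d, (‖H (a + Pi.single i 1) v‖ +
      ‖H (a - Pi.single i 1) v‖))) :
    ∫ v, ‖H a v‖ ^ (1 / 2 : ℝ) ∂(Pn μ (Fin d → ℤ)) ≤
      L ^ (1 / 2 : ℝ) * (e ^ (1 / 2 : ℝ) + γ ^ (1 / 2 : ℝ) * ∑ i : Fin d,
        (∫ v, ‖H (a + Pi.single i 1) v‖ ^ (1 / 2 : ℝ) ∂(Pn μ (Fin d → ℤ)) +
          ∫ v, ‖H (a - Pi.single i 1) v‖ ^ (1 / 2 : ℝ) ∂(Pn μ (Fin d → ℤ)))) := by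
  have hmh : ∀ z, Measurable fun v => ‖H z v‖ ^ (1 / 2 : ℝ) :=
    fun z => (hm z).norm.pow_const _
  have hint : ∀ z, Integrable (fun v => ‖H z v‖ ^ (1 / 2 : ℝ)) (Pn μ (Fin d → ℤ)) := by
    intro z
    refine Integrable.of_bound (hmh z).aestronglyMeasurable (B ^ (1 / 2 : ℝ)) ?_
    refine ae_of_all _ fun v => ?_
    rw [Real.norm_of_nonneg (by positivity)]
    exact Real.rpow_le_rpow (norm_nonneg _) (hB z v) (by norm_num)
  have hint2 : ∀ i ∈ (Finset.univ : Finset (Fin d)), Integrable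
      (fun v => ‖H (a + Pi.single i 1) v‖ ^ (1 / 2 : ℝ) +
        ‖H (a - Pi.single i 1) v‖ ^ (1 / 2 : ℝ)) (Pn μ (Fin d → ℤ)) := by
    intro i _
    exact (hint (a + Pi.single i 1)).add (hint (a - Pi.single i 1))
  have e0 := integral_finsetSum (μ := Pn μ (Fin d → ℤ)) Finset.univ hint2
  have hsI : Integrable (fun v => ∑ i : Fin d, (‖H (a + Pi.single i 1) v‖ ^ (1 / 2 : ℝ) +
        ‖H (a - Pi.single i 1) v‖ ^ (1 / 2 : ℝ))) (Pn μ (Fin d → ℤ)) :=
    integrable_finsetSum _ hint2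
  have hpt : ∀ v, ‖H a v‖ ^ (1 / 2 : ℝ) ≤ L ^ (1 / 2 : ℝ) * (e ^ (1 / 2 : ℝ) +
      γ ^ (1 / 2 : ℝ) * ∑ i : Fin d, (‖H (a + Pi.single i 1) v‖ ^ (1 / 2 : ℝ) +
        ‖H (a - Pi.single i 1) v‖ ^ (1 / 2 : ℝ))) := by
    intro v
    have hS : 0 ≤ ∑ i : Fin d, (‖H (a + Pi.single i 1) v‖ + ‖H (a - Pi.single i 1) v‖) :=
      Finset.sum_nonneg fun i _ => by positivity
    refine (half_mono (norm_nonneg _) hL (by positivity) (h v)).trans ?_
    apply mul_le_mul_of_nonneg_left _ (by positivity)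
    refine (half_add he (by positivity)).trans ?_
    apply add_le_add le_rfl
    rw [Real.mul_rpow hγ hS]
    apply mul_le_mul_of_nonneg_left _ (by positivity)
    exact half_sum _ _ _ (fun i => norm_nonneg _) fun i => norm_nonneg _
  calc ∫ v, ‖H a v‖ ^ (1 / 2 : ℝ) ∂(Pn μ (Fin d → ℤ)) ≤
        ∫ v, L ^ (1 / 2 : ℝ) * (e ^ (1 / 2 : ℝ) +
          γ ^ (1 / 2 : ℝ) * ∑ i : Fin d, (‖H (a + Pi.single i 1) v‖ ^ (1 / 2 : ℝ) +
            ‖H (a - Pi.single i 1) v‖ ^ (1 / 2 : ℝ))) ∂(Pn μ (Fin d → ℤ)) := by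
        apply integral_mono (hint a) _ hpt
        exact ((integrable_const _).add (hsI.const_mul _)).const_mul _
    _ = _ := by
        rw [integral_const_mul, integral_add (integrable_const _) (hsI.const_mul _),
          integral_const_mul, e0, integral_const]
        simp only [probReal_univ, smul_eq_mul, one_mul]
        congr 3
        apply Finset.sum_congr rfl
        intro i _
        exact integral_add (hint (a + Pi.single i 1)) (hint (a - Pi.single i 1))

theorem clip_eq {w t : ℝ} (h : |t| ≤ w) : max (-w) (min w t) = t := by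
  rw [abs_le] at h
  rw [min_eq_right h.2, max_eq_right h.1]

theorem main : S_RK → S_RS → S_FMU := by
  intro hRK hRS d A₀ C₀ c₀
  obtain ⟨C₁, hC₁d⟩ : ∃ C₁, C₁ = max C₀ 1 := ⟨_, rfl⟩
  have hC₁ : 1 ≤ C₁ := by rw [hC₁d]; exact le_max_right _ _
  have hd : (0 : ℝ) ≤ d := Nat.cast_nonneg d
  obtain ⟨K, hK⟩ : ∃ K : ℝ, K = 1 := ⟨_, rfl⟩
  have hK0 : 0 < K := by rw [hK]; exact one_pos
  obtain ⟨A, hA⟩ : ∃ A, A = C₁ + K := ⟨_, rfl⟩
  have hA1 : 1 ≤ A := by rw [hA]; linarith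
  have hA0 : 0 < A := by linarith
  refine ⟨2 * (d + 1) * A, (1 / (4 * (d + 1) * A)) ^ 2, ?_, ?_, ?_⟩
  · nlinarith
  · positivity
  intro μ _ w y₀ hUL γ hγ hγ1 ζ hζre hζy hζ2 x a b
  have hw : 0 < w := by linarith [hUL.hA, hUL.hw]
  have hζ : 0 < ζ.im := hUL.hy.trans_le hζy
  have hsupp : ∀ᵐ x ∂μ, |x| ≤ w := hUL.supp
  have hdec' : Dec μ w C₁ := by
    intro κ α β c h
    refine (hUL.u6 κ α β c h).trans ?_
    refine mul_le_mul_of_nonneg_right ?_ (integral_nonneg fun t => by positivity)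
    rw [hC₁d]
    exact le_max_left _ _
  obtain ⟨g, hg⟩ : ∃ g, g = γ ^ (1 / 2 : ℝ) := ⟨_, rfl⟩
  have hg0 : 0 < g := by rw [hg]; positivity
  have hg1 : g ≤ 1 / (4 * (d + 1) * A) := by
    have h1 : g ≤ ((1 / (4 * (d + 1) * A)) ^ 2) ^ (1 / 2 : ℝ) := by
      rw [hg]
      exact Real.rpow_le_rpow hγ.le hγ1 (by norm_num)
    have h2 : ((1 / (4 * (d + 1) * A)) ^ 2) ^ (1 / 2 : ℝ) = 1 / (4 * (d + 1) * A) := by
      rw [← Real.sqrt_eq_rpow, Real.sqrt_sq (by positivity)]
    rwa [h2] at h1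
  have hr : 2 * d * (A * g) ≤ 1 / 2 := by
    have h1 : A * g ≤ 1 / (4 * (d + 1)) := by
      calc A * g ≤ A * (1 / (4 * (d + 1) * A)) := mul_le_mul_of_nonneg_left hg1 hA0.le
        _ = _ := by field_simp
    calc 2 * d * (A * g) ≤ 2 * d * (1 / (4 * (d + 1))) :=
          mul_le_mul_of_nonneg_left h1 (by positivity)
      _ ≤ 1 / 2 := by
          rw [mul_one_div, div_le_div_iff₀ (by positivity) (by norm_num)]
          nlinarith
  have hKr : K * (g * (2 * d)) ≤ 1 / 2 := by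
    have h1 : K ≤ A := by rw [hA]; linarith
    calc K * (g * (2 * d)) ≤ A * (g * (2 * d)) := mul_le_mul_of_nonneg_right h1 (by positivity)
      _ = 2 * d * (A * g) := by ring
      _ ≤ _ := hr
  obtain ⟨hZm, hQm, ⟨B, hB⟩, hge, hxv⟩ := hRK d w γ ζ hw hγ.le hζ
  have hB0 : 0 ≤ B := (norm_nonneg _).trans (hB x x fun _ => 0)
  -- basic facts
  have hne : ∀ (y : Fin d → ℤ) V, ge w γ ζ (Function.update V y w) y y ≠ 0 := by
    intro y V h0
    have h1 := (hxv y V).1
    unfold Qx at h1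
    rw [h0, div_zero] at h1
    exact zero_ne_one h1
  have hZ : ∀ (y : Fin d → ℤ) V (t : ℝ), (t : ℂ) - Zx w γ ζ y V ≠ 0 := by
    intro y V t h0
    obtain ⟨h1, h2, h3, -⟩ := hxv y V
    have h4 : 0 < (Zx w γ ζ y V).im := by
      rw [h3]
      have h5 := h2.le_tsum y fun j _ => by positivity
      rw [h1, norm_one, one_pow] at h5
      have : 0 < ∑' a, ‖Qx w γ ζ y a V‖ ^ 2 := by linarith
      positivity
    have h6 := congrArg Complex.im h0
    simp at h6
    linarith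
  obtain ⟨κ, hκ⟩ : ∃ κ : ℂ, κ = ζ - 2 * d * γ := ⟨_, rfl⟩
  -- the equations
  have eqG : ∀ (y a : Fin d → ℤ) V (t : ℝ), |t| ≤ w → V a = t →
      ge w γ ζ V y a * ((t : ℂ) - κ) = (if y = a then 1 else 0) + γ * ∑ i : Fin d,
        (ge w γ ζ V y (a + Pi.single i 1) + ge w γ ζ V y (a - Pi.single i 1)) := by
    intro y a V t ht hVa
    have h1 := (hxv y V).2.2.2.2.2.2 a
    rw [hVa, clip_eq ht] at h1
    rw [hκ]
    linear_combination h1
  have normsum : ∀ (u u' : Fin d → ℂ), ‖(γ : ℂ) * ∑ i, (u i + u' i)‖ ≤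
      γ * ∑ i, (‖u i‖ + ‖u' i‖) := by
    intro u u'
    rw [norm_mul, Complex.norm_real, Real.norm_of_nonneg hγ.le]
    apply mul_le_mul_of_nonneg_left _ hγ.le
    exact (norm_sum_le _ _).trans (Finset.sum_le_sum fun i _ => norm_add_le _ _)
  have eqQ : ∀ (a : Fin d → ℤ) V (t : ℝ), a ≠ x → |t| ≤ w → V a = t →
      Qx w γ ζ x a V * ((t : ℂ) - κ) = γ * ∑ i : Fin d,
        (Qx w γ ζ x (a + Pi.single i 1) V + Qx w γ ζ x (a - Pi.single i 1) V) := by
    intro a V t hax ht hVa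
    have h1 := eqG x a (Function.update V x w) t ht (by
      rw [Function.update_of_ne hax, hVa])
    rw [if_neg hax.symm, zero_add] at h1
    unfold Qx
    have h2 := hne x V
    have h3 : ∑ i : Fin d, (ge w γ ζ (Function.update V x w) x (a + Pi.single i 1) /
        ge w γ ζ (Function.update V x w) x x +
        ge w γ ζ (Function.update V x w) x (a - Pi.single i 1) /
        ge w γ ζ (Function.update V x w) x x) = (∑ i : Fin d,
        (ge w γ ζ (Function.update V x w) x (a + Pi.single i 1) +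
          ge w γ ζ (Function.update V x w) x (a - Pi.single i 1))) /
        ge w γ ζ (Function.update V x w) x x := by
      rw [Finset.sum_div]
      apply Finset.sum_congr rfl
      intro i _
      rw [add_div]
    rw [h3, mul_div_assoc', ← h1]
    ring
  -- the functions of one variable
  have formG : ∀ (y a : Fin d → ℤ) V (t : ℝ), |t| ≤ w →
      ge w γ ζ (Function.update V a t) y a = Qx w γ ζ a y V / ((t : ℂ) - Zx w γ ζ a V) := by
    intro y a V t ht
    rw [(hge _ y a).1]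
    exact (hxv a V).2.2.2.2.1 t y ht
  have formQ : ∀ (a : Fin d → ℤ) V, a ≠ x → ∃ α β c : ℂ, ∀ t : ℝ, |t| ≤ w → α * t + β ≠ 0 ∧
      Qx w γ ζ x a (Function.update V a t) = c / (α * t + β) := by
    intro a V hax
    obtain ⟨V1, hV1⟩ : ∃ V1, V1 = Function.update V x w := ⟨_, rfl⟩
    obtain ⟨G0, hG0⟩ : ∃ G0, G0 = ge w γ ζ (Function.update V1 a w) x x := ⟨_, rfl⟩
    obtain ⟨g1, hg1⟩ : ∃ g1, g1 = ge w γ ζ (Function.update V1 a w) x a := ⟨_, rfl⟩
    obtain ⟨Q', hQ'⟩ : ∃ Q', Q' = Qx w γ ζ a x V1 := ⟨_, rfl⟩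
    obtain ⟨Z, hZe⟩ : ∃ Z, Z = Zx w γ ζ a V1 := ⟨_, rfl⟩
    refine ⟨G0 - g1 * Q', w * g1 * Q' - G0 * Z, Q', fun t ht => ?_⟩
    have hcomm : Function.update (Function.update V a t) x w = Function.update V1 a t := by
      rw [hV1, Function.update_comm hax]
    have h1 : ge w γ ζ (Function.update V1 a t) x a = Q' / ((t : ℂ) - Z) := by
      rw [hQ', hZe]
      exact formG x a V1 t ht
    have h1' : ge w γ ζ (Function.update V1 a t) a x = Q' / ((t : ℂ) - Z) := by
      rw [(hge _ a x).1, h1]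
    have hZt : (t : ℂ) - Z ≠ 0 := by rw [hZe]; exact hZ a V1 t
    have h2 : ge w γ ζ (Function.update V1 a t) x x =
        ((G0 - g1 * Q') * t + (w * g1 * Q' - G0 * Z)) / ((t : ℂ) - Z) := by
      rw [(hxv a V1).2.2.2.2.2.1 t x x ht, h1', ← hG0, ← hg1]
      field_simp
      push_cast
      ring
    have h3 : ge w γ ζ (Function.update V1 a t) x x ≠ 0 := by
      rw [← hcomm]
      exact hne x _
    have h4 : (G0 - g1 * Q') * t + (w * g1 * Q' - G0 * Z) ≠ 0 := by
      intro h0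
      rw [h2, h0, zero_div] at h3
      exact h3 rfl
    refine ⟨h4, ?_⟩
    unfold Qx
    rw [hcomm, h1, h2]
    field_simp
  -- lower bounds for the diagonal factor
  have hlow : 1 ≤ ‖(w : ℂ) - κ‖ := by
    have h2 := Complex.abs_re_le_norm ((w : ℂ) - κ)
    have h3 : ((w : ℂ) - κ).re = w - ζ.re + 2 * d * γ := by
      rw [hκ]
      simp
      ring
    rw [h3] at h2
    have h4 : ζ.re ≤ A₀ := (le_abs_self _).trans hζre
    have h5 : 0 ≤ 2 * d * γ := by positivity
    have h6 : 1 ≤ w - ζ.re + 2 * d * γ := by linarith [hUL.hw]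
    exact h6.trans ((le_abs_self _).trans h2)
  -- final comparison
  have hcmp : (2 * d * (A * g)) ≤ 2 * (d + 1) * A * γ ^ (1 / 2 : ℝ) := by
    rw [← hg]
    nlinarith [mul_pos hA0 hg0]
  have hcmp0 : 0 ≤ 2 * d * (A * g) := by positivity
  -- first claim
  refine ⟨?_, ?_⟩
  · obtain ⟨H, hH⟩ : ∃ H : (Fin d → ℤ) → ((Fin d → ℤ) → ℝ) → ℂ,
        H = fun z v => Qx w γ ζ x z (Function.update v b w) := ⟨_, rfl⟩
    have hm : ∀ z, Measurable (H z) := by
      intro z
      rw [hH]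
      exact (hQm x z).comp measurable_update_left
    have hHB : ∀ z v, ‖H z v‖ ≤ B := by
      intro z v
      rw [hH]
      exact hB x z _
    obtain ⟨f, hf⟩ : ∃ f : (Fin d → ℤ) → ℝ, f = fun z =>
      ∫ v, ‖H z v‖ ^ (1 / 2 : ℝ) ∂(Pn μ (Fin d → ℤ)) := ⟨_, rfl⟩
    have hfx : f x = 1 := by
      rw [hf, hH]
      simp only [(hxv x _).1, norm_one, Real.one_rpow, integral_const, probReal_univ, smul_eq_mul,
        mul_one]
    have hf0 : ∀ z, 0 ≤ f z := by
      intro z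
      rw [hf]
      exact integral_nonneg fun v => by positivity
    have hfB : ∀ z, f z ≤ B ^ (1 / 2 : ℝ) := by
      intro z
      rw [hf]
      calc ∫ v, ‖H z v‖ ^ (1 / 2 : ℝ) ∂(Pn μ (Fin d → ℤ)) ≤
            ∫ _, B ^ (1 / 2 : ℝ) ∂(Pn μ (Fin d → ℤ)) := by
            apply integral_mono_of_nonneg (ae_of_all _ fun v => by positivity)
              (integrable_const _)
            exact ae_of_all _ fun v => Real.rpow_le_rpow (norm_nonneg _) (hHB z v) (by norm_num)
        _ = B ^ (1 / 2 : ℝ) := by simp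
    have hdecay := decay x f (A * g) (B ^ (1 / 2 : ℝ)) (by positivity) hr hf0 hfB (by
      intro a hax
      have hS0 : 0 ≤ ∑ i : Fin d, (f (a + Pi.single i 1) + f (a - Pi.single i 1)) :=
        Finset.sum_nonneg fun i _ => add_nonneg (hf0 _) (hf0 _)
      by_cases hab : a = b
      · have h1 := pt (μ := μ) hγ.le a H hm hHB (L := 1) (e := 0) zero_le_one le_rfl (by
          intro v
          have h2 := eqQ a (Function.update v b w) w hax (by rw [abs_of_pos hw])
            (by rw [hab, Function.update_self])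
          have h3 : ‖H a v‖ ≤ γ * ∑ i : Fin d, (‖H (a + Pi.single i 1) v‖ +
              ‖H (a - Pi.single i 1) v‖) := by
            calc ‖H a v‖ ≤ ‖H a v‖ * ‖(w : ℂ) - κ‖ :=
                  le_mul_of_one_le_right (norm_nonneg _) hlow
              _ = ‖Qx w γ ζ x a (Function.update v b w) * ((w : ℂ) - κ)‖ := by
                  rw [norm_mul, hH]
              _ ≤ _ := by
                  rw [h2, hH]
                  exact normsum _ _
          rw [zero_add, one_mul]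
          exact h3)
        rw [Real.zero_rpow (by norm_num), zero_add, Real.one_rpow, ← hg] at h1
        have h2 : f a ≤ K * (g * ∑ i : Fin d, (f (a + Pi.single i 1) + f (a - Pi.single i 1))) := by
          rw [hf, hK]; exact h1
        refine h2.trans ?_
        rw [← mul_assoc]
        apply mul_le_mul_of_nonneg_right _ hS0
        apply mul_le_mul_of_nonneg_right _ hg0.le
        rw [hA]; linarith
      · have h1 := step hRS hsupp (by linarith : 0 ≤ C₁) hdec' hγ.le κ a H hm hHB (by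
          intro v t ht
          have h2 := eqQ a (Function.update (Function.update v a t) b w) t hax ht (by
            rw [Function.update_of_ne hab, Function.update_self])
          calc ‖(t : ℂ) - κ‖ * ‖H a (Function.update v a t)‖ =
                ‖Qx w γ ζ x a (Function.update (Function.update v a t) b w) * ((t : ℂ) - κ)‖ := by
                rw [norm_mul, hH, mul_comm]
            _ ≤ _ := by
                rw [h2, hH]
                exact normsum _ _) (by
          intro v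
          obtain ⟨α, β, c, h2⟩ := formQ a (Function.update v b w) hax
          refine ⟨α, β, c, fun t ht => ⟨(h2 t ht).1, ?_⟩⟩
          rw [hH]
          simp only
          rw [Function.update_comm hab, (h2 t ht).2])
        rw [← hg] at h1
        have h2 : f a ≤ C₁ * g * ∑ i : Fin d, (f (a + Pi.single i 1) + f (a - Pi.single i 1)) := by
          rw [hf]; exact h1
        refine h2.trans ?_
        apply mul_le_mul_of_nonneg_right _ hS0
        apply mul_le_mul_of_nonneg_right _ hg0.le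
        rw [hA]; linarith)
    have h1 := hdecay a
    rw [hfx, one_mul] at h1
    have h2 : f a = ∫ v, ‖Qx w γ ζ x a (Function.update v b w)‖ ^ (1 / 2 : ℝ)
        ∂(Pn μ (Fin d → ℤ)) := by rw [hf, hH]
    rw [← h2]
    exact h1.trans (pow_le_pow_left₀ hcmp0 hcmp _)
  -- second claim
  have second : ∀ s : ℝ, s = w →
      ∫ v, ‖ge w γ ζ (Function.update v x s) x a‖ ^ (1 / 2 : ℝ) ∂(Pn μ (Fin d → ℤ))
        ≤ 2 * (d + 1) * A * (2 * (d + 1) * A * γ ^ (1 / 2 : ℝ)) ^ nd x a := by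
    intro s hs
    have hsw : |s| ≤ w := by rw [hs, abs_of_pos hw]
    have hlow' : 1 ≤ ‖(s : ℂ) - κ‖ := by rw [hs]; exact hlow
    obtain ⟨H, hH⟩ : ∃ H : (Fin d → ℤ) → ((Fin d → ℤ) → ℝ) → ℂ,
        H = fun z v => ge w γ ζ (Function.update v x s) x z := ⟨_, rfl⟩
    obtain ⟨B', hB'⟩ : ∃ B', B' = 1 / ζ.im := ⟨_, rfl⟩
    have hm : ∀ z, Measurable (H z) := by
      intro z
      have e : H z = fun v => Qx w γ ζ x z v / ((s : ℂ) - Zx w γ ζ x v) := by
        rw [hH]
        funext v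
        exact (hxv x v).2.2.2.2.1 s z hsw
      rw [e]
      exact (hQm x z).div ((hZm x).const_sub _)
    have hHB : ∀ z v, ‖H z v‖ ≤ B' := by
      intro z v
      rw [hH, hB']
      exact (hge _ x z).2
    obtain ⟨f, hf⟩ : ∃ f : (Fin d → ℤ) → ℝ, f = fun z =>
      ∫ v, ‖H z v‖ ^ (1 / 2 : ℝ) ∂(Pn μ (Fin d → ℤ)) := ⟨_, rfl⟩
    have hf0 : ∀ z, 0 ≤ f z := by
      intro z
      rw [hf]
      exact integral_nonneg fun v => by positivity
    have hfB : ∀ z, f z ≤ B' ^ (1 / 2 : ℝ) := by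
      intro z
      rw [hf]
      calc ∫ v, ‖H z v‖ ^ (1 / 2 : ℝ) ∂(Pn μ (Fin d → ℤ)) ≤
            ∫ _, B' ^ (1 / 2 : ℝ) ∂(Pn μ (Fin d → ℤ)) := by
            apply integral_mono_of_nonneg (ae_of_all _ fun v => by positivity)
              (integrable_const _)
            exact ae_of_all _ fun v => Real.rpow_le_rpow (norm_nonneg _) (hHB z v) (by norm_num)
        _ = B' ^ (1 / 2 : ℝ) := by simp
    have hdecay := decay x f (A * g) (B' ^ (1 / 2 : ℝ)) (by positivity) hr hf0 hfB (by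
      intro a hax
      have hS0 : 0 ≤ ∑ i : Fin d, (f (a + Pi.single i 1) + f (a - Pi.single i 1)) :=
        Finset.sum_nonneg fun i _ => add_nonneg (hf0 _) (hf0 _)
      have h1 := step hRS hsupp (by linarith : 0 ≤ C₁) hdec' hγ.le κ a H hm hHB (by
        intro v t ht
        have h2 := eqG x a (Function.update (Function.update v a t) x s) t ht (by
          rw [Function.update_of_ne hax, Function.update_self])
        rw [if_neg hax.symm, zero_add] at h2
        calc ‖(t : ℂ) - κ‖ * ‖H a (Function.update v a t)‖ =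
              ‖ge w γ ζ (Function.update (Function.update v a t) x s) x a * ((t : ℂ) - κ)‖ := by
              rw [norm_mul, hH, mul_comm]
          _ ≤ _ := by
              rw [h2, hH]
              exact normsum _ _) (by
        intro v
        refine ⟨1, -Zx w γ ζ a (Function.update v x s), Qx w γ ζ a x (Function.update v x s),
          fun t ht => ⟨?_, ?_⟩⟩
        · rw [one_mul, ← sub_eq_add_neg]
          exact hZ _ _ t
        · rw [hH]
          simp only
          rw [Function.update_comm hax, formG x a _ t ht, one_mul, ← sub_eq_add_neg])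
      rw [← hg] at h1
      have h2 : f a ≤ C₁ * g * ∑ i : Fin d, (f (a + Pi.single i 1) + f (a - Pi.single i 1)) := by
        rw [hf]; exact h1
      refine h2.trans ?_
      apply mul_le_mul_of_nonneg_right _ hS0
      apply mul_le_mul_of_nonneg_right _ hg0.le
      rw [hA]; linarith)
    have hle : ∀ z, f z ≤ f x := by
      intro z
      refine (hdecay z).trans ?_
      have : (2 * d * (A * g)) ^ nd x z ≤ 1 := pow_le_one₀ hcmp0 (by linarith)
      calc f x * (2 * d * (A * g)) ^ nd x z ≤ f x * 1 := mul_le_mul_of_nonneg_left this (hf0 x)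
        _ = f x := mul_one _
    have hfx : f x ≤ 2 * K := by
      have h1 := pt (μ := μ) hγ.le x H hm hHB (L := 1) (e := 1) zero_le_one
        zero_le_one (by
          intro v
          have h2 := eqG x x (Function.update v x s) s hsw (Function.update_self _ _ _)
          rw [if_pos rfl] at h2
          have h3 : ‖H x v‖ ≤ 1 + γ * ∑ i : Fin d, (‖H (x + Pi.single i 1) v‖ +
              ‖H (x - Pi.single i 1) v‖) := by
            calc ‖H x v‖ ≤ ‖H x v‖ * ‖(s : ℂ) - κ‖ :=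
                  le_mul_of_one_le_right (norm_nonneg _) hlow'
              _ = ‖ge w γ ζ (Function.update v x s) x x * ((s : ℂ) - κ)‖ := by
                  rw [norm_mul, hH]
              _ ≤ _ := by
                  rw [h2, hH]
                  refine (norm_add_le _ _).trans ?_
                  rw [norm_one]
                  exact add_le_add le_rfl (normsum _ _)
          rw [one_mul]
          exact h3)
      rw [Real.one_rpow, ← hg] at h1
      have h2 : f x ≤ K * (1 + g * ∑ i : Fin d, (f (x + Pi.single i 1) + f (x - Pi.single i 1))) := by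
        rw [hf, hK]; exact h1
      have h3 : ∑ i : Fin d, (f (x + Pi.single i 1) + f (x - Pi.single i 1)) ≤ 2 * d * f x := by
        calc ∑ i : Fin d, (f (x + Pi.single i 1) + f (x - Pi.single i 1)) ≤
              ∑ _i : Fin d, (f x + f x) :=
              Finset.sum_le_sum fun i _ => add_le_add (hle _) (hle _)
          _ = 2 * d * f x := by
              rw [Finset.sum_const, Finset.card_univ, Fintype.card_fin, nsmul_eq_mul]; ring
      have h4 : f x ≤ K + K * (g * (2 * d)) * f x := by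
        calc f x ≤ K * (1 + g * ∑ i : Fin d, (f (x + Pi.single i 1) + f (x - Pi.single i 1))) := h2
          _ ≤ K * (1 + g * (2 * d * f x)) := by gcongr
          _ = _ := by ring
      have h5 : K * (g * (2 * d)) * f x ≤ 1 / 2 * f x :=
        mul_le_mul_of_nonneg_right hKr (hf0 x)
      linarith
    have h2 : f a = ∫ v, ‖ge w γ ζ (Function.update v x s) x a‖ ^ (1 / 2 : ℝ)
        ∂(Pn μ (Fin d → ℤ)) := by rw [hf, hH]
    rw [← h2]
    calc f a ≤ f x * (2 * d * (A * g)) ^ nd x a := hdecay a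
      _ ≤ (2 * (d + 1) * A) * (2 * (d + 1) * A * γ ^ (1 / 2 : ℝ)) ^ nd x a := by
          apply mul_le_mul _ (pow_le_pow_left₀ hcmp0 hcmp _) (by positivity) (by positivity)
          refine hfx.trans ?_
          have : K ≤ A := by rw [hA]; linarith
          nlinarith
  exact second w rfl

end Pool.Agent.N73.SN.FMU
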